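import Pool.Agent.helper87.AU.SpecQ2

/-!
# Project au (MP_97532f_ag), module QF8: commutators of wild elements
-/

namespace Pool.Agent.helper53.AU

noncomputable section

theorem QF8 (h1 : QF1_stmt) (h4 : QF4_stmt) : QF8_stmt := by
  intro k F _ _ _ _ hF P s s' hs hs' hs1 hs'1 hj hj' hne
  obtain ⟨ha0, ha, hau⟩ := h4 k F hF P s hs hs1 hj
  obtain ⟨hb0, hb, hbu⟩ := h4 k F hF P s' hs' hs'1 hj'
  set t := P.unif with ht
  set a := P.lcoef s with hadef
  set b := P.lcoef s' with hbdef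
  set i := P.jump s with hi
  set j := P.jump s' with hj2
  have ht0 : t ≠ 0 := P.unif_spec.1
  have ht1 : P.ord t = 1 := P.unif_spec.2
  have ea := (ha a).2 rfl
  have eb := (hb b).2 rfl
  have e1 := hau ((j : ℤ) + 1) b (s' t - t) (by
    have : t ^ ((j : ℤ) + 1) = t ^ (j + 1) := by
      rw [← zpow_natCast]; push_cast; rfl
    rw [this]
    have h2 : (j : ℤ) + 1 + 1 = (j : ℤ) + 2 := by ring
    rw [h2]
    exact eb)
  have e2 := hbu ((i : ℤ) + 1) a (s t - t) (by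
    have : t ^ ((i : ℤ) + 1) = t ^ (i + 1) := by
      rw [← zpow_natCast]; push_cast; rfl
    rw [this]
    have h2 : (i : ℤ) + 1 + 1 = (i : ℤ) + 2 := by ring
    rw [h2]
    exact ea)
  have hp1 : (j : ℤ) + 1 + i = (i : ℤ) + j + 1 := by ring
  have hp2 : (i : ℤ) + 1 + j = (i : ℤ) + j + 1 := by ring
  rw [hp1] at e1
  rw [hp2] at e2
  set X : F := s (s' t) - s' (s t) with hX
  have hXe : X = algebraMap k F ((((j : ℕ) : k) - ((i : ℕ) : k)) * a * b) * t ^ ((i : ℤ) + j + 1) +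
      ((s (s' t - t) - (s' t - t) -
          algebraMap k F ((((j : ℤ) + 1 : ℤ) : k) * b * a) * t ^ ((i : ℤ) + j + 1)) -
        (s' (s t - t) - (s t - t) -
          algebraMap k F ((((i : ℤ) + 1 : ℤ) : k) * a * b) * t ^ ((i : ℤ) + j + 1))) := by
    rw [hX]
    simp only [map_sub, map_mul, map_add, Int.cast_add, Int.cast_natCast, Int.cast_one, map_one,
      map_natCast]
    ring
  have hc0 : (((j : ℕ) : k) - ((i : ℕ) : k)) * a * b ≠ 0 :=
    mul_ne_zero (mul_ne_zero (sub_ne_zero.2 (Ne.symm hne)) ha0) hb0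
  have hm0 : algebraMap k F ((((j : ℕ) : k) - ((i : ℕ) : k)) * a * b) ≠ 0 := by
    rw [Ne, map_eq_zero]
    exact hc0
  have hord : P.ord (algebraMap k F ((((j : ℕ) : k) - ((i : ℕ) : k)) * a * b) *
      t ^ ((i : ℤ) + j + 1)) = (i : ℤ) + j + 1 := by
    rw [P.ord_mul _ _ hm0 (zpow_ne_zero _ ht0), P.ord_const _ hc0, P.ord_zpow ht0, ht1]
    ring
  have hG : P.Ge ((i : ℤ) + j + 1 + 1) ((s (s' t - t) - (s' t - t) -
          algebraMap k F ((((j : ℤ) + 1 : ℤ) : k) * b * a) * t ^ ((i : ℤ) + j + 1)) -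
        (s' (s t - t) - (s t - t) -
          algebraMap k F ((((i : ℤ) + 1 : ℤ) : k) * a * b) * t ^ ((i : ℤ) + j + 1))) := e1.sub e2
  have hfin := Place.ord_add_eq (P := P) (mul_ne_zero hm0 (zpow_ne_zero ((i : ℤ) + j + 1) ht0))
    (by rw [hord]; exact hG)
  rw [← hXe, hord] at hfin
  obtain ⟨hX0, hXo⟩ := hfin
  have hcr : (s * s' * s⁻¹ * s'⁻¹) (s' (s t)) = s (s' t) := by
    simp [AlgEquiv.mul_apply]
  have hc1 : s * s' * s⁻¹ * s'⁻¹ ≠ 1 := by
    intro h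
    rw [h, AlgEquiv.one_apply] at hcr
    exact hX0 (by rw [hX, ← hcr, sub_self])
  refine ⟨hc1, ?_⟩
  have hsi : s⁻¹ • P = P := by
    conv_lhs => rw [← hs]
    rw [inv_smul_smul]
  have hsi' : s'⁻¹ • P = P := by
    conv_lhs => rw [← hs']
    rw [inv_smul_smul]
  have hcP : (s * s' * s⁻¹ * s'⁻¹) • P = P := by
    rw [mul_smul, hsi', mul_smul, hsi, mul_smul, hs', hs]
  have hr : P.Unif (s' (s t)) := by
    refine ⟨by simpa using ht0, ?_⟩
    rw [ord_apply_of_smul_eq hs', ord_apply_of_smul_eq hs, ht1]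
  have h5 := ((h1 k F hF P (s * s' * s⁻¹ * s'⁻¹) hcP hc1).1 _ hr).2
  rw [hcr, ← hX, hXo] at h5
  omega

end

end Pool.Agent.helper53.AU
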